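import Pool.Agent.H333R3.DG.Rank

set_option autoImplicit false

/-! The Squier complex of `Q` with deterministic trees attached at one vertex: the diagram groups agree. -/

namespace Pool.Agent.Y50.RD

open CategoryTheory
open Pool.Agent.H333R3.DG

theorem map_ginv {G H : Type} [Groupoid G] [Groupoid H] (F : G ⥤ H) {x y : G} (g : x ⟶ y) :
    F.map (Groupoid.inv g) = Groupoid.inv (F.map g) := by
  rw [Groupoid.inv_eq_inv, Groupoid.inv_eq_inv, Functor.map_inv]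

section Ret

variable {G : Type} [Groupoid G]

open Classical in
/-- a path from `v` to `x`, trivial when `x = v` -/
noncomputable def pth (v x : G) (h : Nonempty (v ⟶ x)) : v ⟶ x :=
  if hx : v = x then eqToHom hx else h.some

theorem pth_self (v : G) (h : Nonempty (v ⟶ v)) : pth v v h = 𝟙 v := by
  unfold pth
  rw [dif_pos rfl]
  rfl

open Classical in
/-- retraction of a groupoid on a vertex group -/
noncomputable def rt (v : G) {x y : G} (g : x ⟶ y) : v ⟶ v :=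
  if h : Nonempty (v ⟶ x) then pth v x h ≫ g ≫ Groupoid.inv (pth v y ⟨h.some ≫ g⟩) else 𝟙 v

theorem rt_id (v x : G) : rt v (𝟙 x) = 𝟙 v := by
  unfold rt
  by_cases h : Nonempty (v ⟶ x)
  · rw [dif_pos h]
    simp
  · rw [dif_neg h]

theorem rt_comp (v : G) {x y z : G} (f : x ⟶ y) (g : y ⟶ z) : rt v (f ≫ g) = rt v f ≫ rt v g := by
  unfold rt
  by_cases h : Nonempty (v ⟶ x)
  · have h2 : Nonempty (v ⟶ y) := ⟨h.some ≫ f⟩
    rw [dif_pos h, dif_pos h, dif_pos h2]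
    simp
  · have h2 : ¬ Nonempty (v ⟶ y) := fun ⟨k⟩ => h ⟨k ≫ Groupoid.inv f⟩
    rw [dif_neg h, dif_neg h, dif_neg h2]
    simp

theorem rt_inv (v : G) {x y : G} (f : x ⟶ y) : rt v (Groupoid.inv f) = Groupoid.inv (rt v f) := by
  have h : rt v f ≫ rt v (Groupoid.inv f) = 𝟙 v := by
    rw [← rt_comp, Groupoid.comp_inv, rt_id]
  have h2 := congrArg (fun g => Groupoid.inv (rt v f) ≫ g) h
  simpa using h2

theorem rt_self (v : G) (g : v ⟶ v) : rt v g = g := by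
  have h : Nonempty (v ⟶ v) := ⟨𝟙 v⟩
  unfold rt
  rw [dif_pos h, pth_self]
  simp

end Ret

theorem lift_of' {P : Pres} {G : Type} [Groupoid G] (φ : Vertex P ⥤q G) {x y : Vertex P} (e : x ⟶ y) :
    (Quiver.FreeGroupoid.lift φ).map ((Quiver.FreeGroupoid.of _).map e) = φ.map e := by
  change 𝟙 _ ≫ φ.map e = φ.map e
  simp

section Att

variable {P Q : Pres}

/-- The Squier complex of `Q` sits in the one of `P` (map `ι` on vertices, `I` on edges), and a set `C` of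
vertices is attached to it at `ι v`. -/
structure Att (P Q : Pres) (v : Vertex Q) (ι : Vertex Q → Vertex P)
    (I : ∀ u u' : Vertex Q, (u ⟶ u') → (ι u ⟶ ι u')) (C : Set (Vertex P)) : Prop where
  inj : Function.Injective ι
  injI : ∀ {u u' : Vertex Q} (e e' : u ⟶ u'), I _ _ e = I _ _ e' → e = e'
  out : ∀ (u : Vertex Q) (s : Σ y : Vertex P, (ι u ⟶ y)), ∃ (u' : Vertex Q) (e' : u ⟶ u'), s = ⟨ι u', I _ _ e'⟩
  inn : ∀ (u : Vertex Q) (s : Σ y : Vertex P, (y ⟶ ι u)),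
    (∃ (u' : Vertex Q) (e' : u' ⟶ u), s = ⟨ι u', I _ _ e'⟩) ∨ (u = v ∧ s.1 ∈ C)
  det : ∀ x ∈ C, ∀ s s' : (Σ y : Vertex P, (x ⟶ y)), s = s'
  bwd : ∀ x ∈ C, ∀ y : Vertex P, Nonempty (y ⟶ x) → y ∈ C
  dis : ∀ u : Vertex Q, ι u ∉ C
  sq1 : ∀ {x y z t : Vertex Q} (e₁ : x ⟶ y) (e₂ : y ⟶ t) (e₃ : x ⟶ z) (e₄ : z ⟶ t),
    IsSquare e₁ e₂ e₃ e₄ → IsSquare (I _ _ e₁) (I _ _ e₂) (I _ _ e₃) (I _ _ e₄)
  sq2 : ∀ {x y z t : Vertex Q} (e₁ : x ⟶ y) (e₂ : y ⟶ t) (e₃ : x ⟶ z) (e₄ : z ⟶ t),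
    IsSquare (I _ _ e₁) (I _ _ e₂) (I _ _ e₃) (I _ _ e₄) → IsSquare e₁ e₂ e₃ e₄
  ne : ∀ r ∈ P.2, r.1 ≠ []

variable {v : Vertex Q} {ι : Vertex Q → Vertex P}
  {I : ∀ u u' : Vertex Q, (u ⟶ u') → (ι u ⟶ ι u')} {C : Set (Vertex P)}

theorem ed_square {x y z t : Vertex P} (e₁ : x ⟶ y) (e₂ : y ⟶ t) (e₃ : x ⟶ z) (e₄ : z ⟶ t)
    (h : IsSquare e₁ e₂ e₃ e₄) : ed e₁ ≫ ed e₂ = ed e₃ ≫ ed e₄ := by
  exact ((CategoryTheory.Quotient.functor (SquareRel P)).map_comp _ _).symm.trans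
    ((CategoryTheory.Quotient.sound _ (SquareRel.square e₁ e₂ e₃ e₄ h)).trans
      ((CategoryTheory.Quotient.functor (SquareRel P)).map_comp _ _))

/-- the functor from the groupoid of `Q` to the one of `P` -/
noncomputable def PhiF (hA : Att P Q v ι I C) : Squier Q ⥤ Squier P :=
  CategoryTheory.Quotient.lift (SquareRel Q)
    (Quiver.FreeGroupoid.lift
      ({ obj := fun u => pt (ι u), map := fun {u u'} e => ed (I _ _ e) } : Vertex Q ⥤q Squier P))
    (by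
      rintro _ _ _ _ ⟨e₁, e₂, e₃, e₄, h⟩
      rw [Functor.map_comp, Functor.map_comp, lift_of', lift_of', lift_of', lift_of']
      exact ed_square _ _ _ _ (hA.sq1 e₁ e₂ e₃ e₄ h))

/-- on morphisms between vertices -/
noncomputable def Phi (hA : Att P Q v ι I C) {u u' : Vertex Q} (g : pt u ⟶ pt u') : pt (ι u) ⟶ pt (ι u') :=
  (PhiF hA).map g

theorem Phi_id (hA : Att P Q v ι I C) (u : Vertex Q) : Phi hA (𝟙 (pt u)) = 𝟙 (pt (ι u)) :=
  (PhiF hA).map_id _

theorem Phi_comp (hA : Att P Q v ι I C) {u u' u'' : Vertex Q} (g : pt u ⟶ pt u') (h : pt u' ⟶ pt u'') :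
    Phi hA (g ≫ h) = Phi hA g ≫ Phi hA h := (PhiF hA).map_comp _ _

theorem Phi_inv (hA : Att P Q v ι I C) {u u' : Vertex Q} (g : pt u ⟶ pt u') :
    Phi hA (Groupoid.inv g) = Groupoid.inv (Phi hA g) := map_ginv (PhiF hA) g

theorem Phi_ed (hA : Att P Q v ι I C) {u u' : Vertex Q} (e : u ⟶ u') : Phi hA (ed e) = ed (I _ _ e) := by
  exact lift_of' _ e

/-- edges with their end points -/
abbrev EE (P : Pres) := Σ x y : Vertex P, (x ⟶ y)

open Classical in
/-- image in the vertex group of an edge -/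
noncomputable def redge (v : Vertex Q) (ι : Vertex Q → Vertex P)
    (I : ∀ u u' : Vertex Q, (u ⟶ u') → (ι u ⟶ ι u')) (s : EE P) : pt v ⟶ pt v :=
  if h : ∃ t : EE Q, (⟨ι t.1, ι t.2.1, I _ _ t.2.2⟩ : EE P) = s then rt (pt v) (ed h.choose.2.2)
  else 𝟙 (pt v)

theorem redge_im (hA : Att P Q v ι I C) {u u' : Vertex Q} (e : u ⟶ u') :
    redge v ι I ⟨ι u, ι u', I _ _ e⟩ = rt (pt v) (ed e) := by
  unfold redge
  have h : ∃ t : EE Q, (⟨ι t.1, ι t.2.1, I _ _ t.2.2⟩ : EE P) = ⟨ι u, ι u', I _ _ e⟩ := ⟨⟨u, u', e⟩, rfl⟩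
  rw [dif_pos h]
  have h2 := h.choose_spec
  generalize h.choose = t at h2
  obtain ⟨u₁, u₁', e₁⟩ := t
  simp only at h2
  have h3 : u₁ = u := hA.inj (congrArg Sigma.fst h2)
  subst h3
  have h4 : (⟨ι u₁', I _ _ e₁⟩ : Σ y : Vertex P, (ι u₁ ⟶ y)) = ⟨ι u', I _ _ e⟩ := by
    simpa using h2
  have h5 : u₁' = u' := hA.inj (congrArg Sigma.fst h4)
  subst h5
  have h6 : I _ _ e₁ = I _ _ e := by simpa using h4
  rw [hA.injI _ _ h6]

theorem redge_out {x y : Vertex P} (e : x ⟶ y) (h : ∀ u, x ≠ ι u) : redge v ι I ⟨x, y, e⟩ = 𝟙 (pt v) := by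
  unfold redge
  rw [dif_neg]
  rintro ⟨t, ht⟩
  exact h t.1 (congrArg Sigma.fst ht).symm

theorem redge_square (hA : Att P Q v ι I C) {x y z t : Vertex P} (e₁ : x ⟶ y) (e₂ : y ⟶ t) (e₃ : x ⟶ z)
    (e₄ : z ⟶ t) (h : IsSquare e₁ e₂ e₃ e₄) :
    redge v ι I ⟨x, y, e₁⟩ ≫ redge v ι I ⟨y, t, e₂⟩ = redge v ι I ⟨x, z, e₃⟩ ≫ redge v ι I ⟨z, t, e₄⟩ := by
  by_cases hx : ∃ u, x = ι u
  · obtain ⟨u, rfl⟩ := hx
    obtain ⟨u₁, f₁, h₁⟩ := hA.out u ⟨y, e₁⟩
    cases h₁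
    obtain ⟨u₂, f₂, h₂⟩ := hA.out u₁ ⟨t, e₂⟩
    cases h₂
    obtain ⟨u₃, f₃, h₃⟩ := hA.out u ⟨z, e₃⟩
    cases h₃
    obtain ⟨u₄, f₄, h₄⟩ := hA.out u₃ ⟨ι u₂, e₄⟩
    have h5 : u₂ = u₄ := hA.inj (congrArg Sigma.fst h₄)
    subst h5
    have h6 : e₄ = I _ _ f₄ := by simpa using h₄
    subst h6
    rw [redge_im hA, redge_im hA, redge_im hA, redge_im hA, ← rt_comp, ← rt_comp,
      ed_square _ _ _ _ (hA.sq2 _ _ _ _ h)]
  · have hx' : ∀ u, x ≠ ι u := fun u hu => hx ⟨u, hu⟩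
    have hxC : x ∉ C := by
      intro hC
      have h1 := hA.det x hC ⟨y, e₁⟩ ⟨z, e₃⟩
      cases h1
      obtain ⟨a, b, c, u, v, u', v', k1, k2, k3, k4⟩ := h
      have k5 := k1.1.symm.trans k3.1
      have k6 : u ≠ [] := by
        have := hA.ne (Edge.r e₁) (Edge.mem e₁)
        rw [k1.2.1] at this
        exact this
      have k7 := congrArg List.length k5
      simp only [List.length_append] at k7
      have k8 : 0 < u.length := List.length_pos_of_ne_nil k6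
      omega
    have hne : ∀ {y : Vertex P} (e : x ⟶ y), ∀ u, y ≠ ι u := by
      rintro y e u rfl
      rcases hA.inn u ⟨x, e⟩ with ⟨u', e', h1⟩ | ⟨-, h1⟩
      · exact hx' u' (congrArg Sigma.fst h1)
      · exact hxC h1
    rw [redge_out e₁ hx', redge_out e₃ hx', redge_out e₂ (hne e₁), redge_out e₄ (hne e₃)]

/-- the retraction -/
noncomputable def RetF (hA : Att P Q v ι I C) : Squier P ⥤ Squier Q :=
  CategoryTheory.Quotient.lift (SquareRel P)
    (Quiver.FreeGroupoid.lift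
      ({ obj := fun _ => pt v, map := fun {x y} e => redge v ι I ⟨x, y, e⟩ } : Vertex P ⥤q Squier Q))
    (by
      rintro _ _ _ _ ⟨e₁, e₂, e₃, e₄, h⟩
      rw [Functor.map_comp, Functor.map_comp, lift_of', lift_of', lift_of', lift_of']
      exact redge_square hA e₁ e₂ e₃ e₄ h)

/-- the retraction on morphisms -/
noncomputable def Rt (hA : Att P Q v ι I C) {x y : Vertex P} (g : pt x ⟶ pt y) : pt v ⟶ pt v :=
  (RetF hA).map g

theorem Rt_id (hA : Att P Q v ι I C) (x : Vertex P) : Rt hA (𝟙 (pt x)) = 𝟙 (pt v) :=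
  (RetF hA).map_id _

theorem Rt_comp (hA : Att P Q v ι I C) {x y z : Vertex P} (g : pt x ⟶ pt y) (h : pt y ⟶ pt z) :
    Rt hA (g ≫ h) = Rt hA g ≫ Rt hA h := (RetF hA).map_comp _ _

theorem Rt_inv (hA : Att P Q v ι I C) {x y : Vertex P} (g : pt x ⟶ pt y) :
    Rt hA (Groupoid.inv g) = Groupoid.inv (Rt hA g) := map_ginv (RetF hA) g

theorem Rt_ed (hA : Att P Q v ι I C) {u u' : Vertex Q} (e : u ⟶ u') :
    Rt hA (ed (I _ _ e)) = rt (pt v) (ed e) := by
  rw [← redge_im hA]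
  exact lift_of' _ (I _ _ e)

theorem Ret_Phi (hA : Att P Q v ι I C) : ∀ (u : Vertex Q) (g : pt v ⟶ pt u),
    Rt hA (Phi hA g) = rt (pt v) g := by
  apply hom_induction
  · rw [Phi_id, Rt_id, rt_id]
  · intro y z g e ih
    rw [Phi_comp, Phi_ed, Rt_comp, rt_comp, ih, Rt_ed]
  · intro y z g e ih
    rw [Phi_comp, Phi_inv, Phi_ed, Rt_comp, rt_comp, ih, Rt_inv, rt_inv, Rt_ed]

/-- the path of attached vertices to `ι v` -/
inductive Flow (ι : Vertex Q → Vertex P) (v : Vertex Q) (C : Set (Vertex P)) :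
    (x : Vertex P) → (pt x ⟶ pt (ι v)) → Prop
  | base {x : Vertex P} (e : x ⟶ ι v) : Flow ι v C x (ed e)
  | step {x y : Vertex P} (e : x ⟶ y) (hy : y ∈ C) {g : pt y ⟶ pt (ι v)} (h : Flow ι v C y g) :
      Flow ι v C x (ed e ≫ g)

theorem Flow.unique (hA : Att P Q v ι I C) {x : Vertex P} {g : pt x ⟶ pt (ι v)} (h : Flow ι v C x g) :
    x ∈ C → ∀ {g' : pt x ⟶ pt (ι v)}, Flow ι v C x g' → g = g' := by
  induction h with
  | @base x e =>
    intro hx g' h'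
    cases h' with
    | base e' =>
      have := hA.det x hx ⟨_, e⟩ ⟨_, e'⟩
      have h2 : e = e' := by simpa using this
      rw [h2]
    | step e' hy h' =>
      have := hA.det x hx ⟨_, e⟩ ⟨_, e'⟩
      have h2 := congrArg Sigma.fst this
      simp only at h2
      exact absurd (h2 ▸ hy) (hA.dis v)
  | @step x y e hy g h ih =>
    intro hx g' h'
    cases h' with
    | base e' =>
      have := hA.det x hx ⟨_, e⟩ ⟨_, e'⟩
      have h2 := congrArg Sigma.fst this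
      simp only at h2
      exact absurd (h2 ▸ hy) (hA.dis v)
    | step e' hy' h' =>
      have := hA.det x hx ⟨_, e⟩ ⟨_, e'⟩
      cases this
      rw [ih hy h']

/-- normal forms of the morphisms from `w` -/
inductive NF (hA : Att P Q v ι I C) {w : Vertex P} (fw : pt w ⟶ pt (ι v)) :
    (y : Vertex P) → (pt w ⟶ pt y) → Prop
  | c {y : Vertex P} (hy : y ∈ C) {f : pt y ⟶ pt (ι v)} (hf : Flow ι v C y f) (γ : pt v ⟶ pt v) :
      NF hA fw y (fw ≫ Phi hA γ ≫ Groupoid.inv f)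
  | q (u : Vertex Q) (γ : pt v ⟶ pt u) : NF hA fw (ι u) (fw ≫ Phi hA γ)

theorem nf_all (hA : Att P Q v ι I C) {w : Vertex P} (hw : w ∈ C) {fw : pt w ⟶ pt (ι v)}
    (hfw : Flow ι v C w fw) : ∀ (y : Vertex P) (g : pt w ⟶ pt y), NF hA fw y g := by
  apply hom_induction
  · have := NF.c (hA := hA) (fw := fw) hw hfw (𝟙 _)
    rw [Phi_id] at this
    simpa using this
  · intro y z g e h
    cases h with
    | @c y hy f hf γ =>
      cases hf with
      | base e₀ =>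
        have h1 := hA.det y hy ⟨_, e₀⟩ ⟨_, e⟩
        cases h1
        have := NF.q (hA := hA) (fw := fw) v γ
        simpa using this
      | step e₀ hyC h =>
        have h1 := hA.det y hy ⟨_, e₀⟩ ⟨_, e⟩
        cases h1
        have := NF.c (hA := hA) (fw := fw) hyC h γ
        simpa using this
    | q u γ =>
      obtain ⟨u', e', h1⟩ := hA.out u ⟨z, e⟩
      cases h1
      have := NF.q (hA := hA) (fw := fw) u' (γ ≫ ed e')
      rw [Phi_comp, Phi_ed] at this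
      simpa using this
  · intro y z g e h
    cases h with
    | @c y hy f hf γ =>
      have hz := hA.bwd y hy z ⟨e⟩
      have := NF.c (hA := hA) (fw := fw) hz (Flow.step e hy hf) γ
      simpa using this
    | q u γ =>
      rcases hA.inn u ⟨z, e⟩ with ⟨u', e', h1⟩ | ⟨h1, h2⟩
      · cases h1
        have := NF.q (hA := hA) (fw := fw) u' (γ ≫ Groupoid.inv (ed e'))
        rw [Phi_comp, Phi_inv, Phi_ed] at this
        simpa using this
      · subst h1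
        have := NF.c (hA := hA) (fw := fw) h2 (Flow.base e) γ
        simpa using this

theorem NF.loop (hA : Att P Q v ι I C) {w : Vertex P} (hw : w ∈ C) {fw : pt w ⟶ pt (ι v)}
    (hfw : Flow ι v C w fw) (g : pt w ⟶ pt w) :
    ∃ γ : pt v ⟶ pt v, g = fw ≫ Phi hA γ ≫ Groupoid.inv fw := by
  have key : ∀ (y : Vertex P) (g : pt w ⟶ pt y), NF hA fw y g → ∀ hy : y = w,
      ∃ γ : pt v ⟶ pt v, g = (fw ≫ Phi hA γ ≫ Groupoid.inv fw) ≫ eqToHom (by rw [hy]) := by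
    intro y g h
    cases h with
    | @c y hy f hf γ =>
      intro hyw
      subst hyw
      have := Flow.unique hA hf hy hfw
      subst this
      exact ⟨γ, by simp⟩
    | q u γ =>
      intro hyw
      exact absurd (hyw ▸ hw) (hA.dis u)
  obtain ⟨γ, h⟩ := key w g (nf_all hA hw hfw w g) rfl
  exact ⟨γ, by simpa using h⟩

/-- **The diagram groups agree.** -/
theorem iso_of_att (hA : Att P Q v ι I C) {w : Vertex P} (hw : w ∈ C) {fw : pt w ⟶ pt (ι v)}
    (hfw : Flow ι v C w fw) : Nonempty (DiagramGroup Q v ≃* DiagramGroup P w) := by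
  let F : DiagramGroup Q v →* DiagramGroup P w := MonoidHom.mk'
    (fun γ => (fw ≫ Phi hA γ ≫ Groupoid.inv fw : pt w ⟶ pt w)) (by
      intro a b
      rw [Groupoid.vertexGroup_mul, Groupoid.vertexGroup_mul, Phi_comp]
      simp)
  refine ⟨MulEquiv.ofBijective F ⟨?_, ?_⟩⟩
  · intro a b hab
    have h1 : fw ≫ Phi hA a ≫ Groupoid.inv fw = fw ≫ Phi hA b ≫ Groupoid.inv fw := hab
    have h2 : Phi hA a = Phi hA b := by
      have h3 := congrArg (fun g => Groupoid.inv fw ≫ g ≫ fw) h1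
      simpa using h3
    have h4 : Rt hA (Phi hA a) = Rt hA (Phi hA b) := by rw [h2]
    rw [Ret_Phi, Ret_Phi, rt_self, rt_self] at h4
    exact h4
  · intro g
    obtain ⟨γ, h⟩ := NF.loop hA hw hfw g
    exact ⟨γ, h.symm⟩

end Att

end Pool.Agent.Y50.RD
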