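import Pool.Agent.Y50.RD.Stm
import Pool.Agent.Y50.RD.Iso

set_option autoImplicit false

/-! The Squier complex of `Q` inside the one of the machine presentation. -/

namespace Pool.Agent.Y50.RD

open Turing CategoryTheory
open Pool.Agent.H333R3.DG

theorem sft_inj (N : ℕ) : Function.Injective (sft N) := by
  intro a b h
  unfold sft at h
  omega

theorem map_sft_inj {N : ℕ} {a b : List ℕ} (h : a.map (sft N) = b.map (sft N)) : a = b :=
  List.map_injective_iff.2 (sft_inj N) h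

theorem edge_ext_in {P : Pres} {x : Vertex P} (s s' : Σ y : Vertex P, (y ⟶ x))
    (ha : (show Edge P s.1 x from s.2).a = (show Edge P s'.1 x from s'.2).a)
    (hb : (show Edge P s.1 x from s.2).b = (show Edge P s'.1 x from s'.2).b)
    (hr : (show Edge P s.1 x from s.2).r = (show Edge P s'.1 x from s'.2).r) : s = s' := by
  obtain ⟨⟨yw, hy⟩, ⟨a, b, r, mem, src, tgt⟩⟩ := s
  obtain ⟨⟨yw', hy'⟩, ⟨a', b', r', mem', src', tgt'⟩⟩ := s'
  dsimp only at ha hb hr src src'
  subst ha hb hr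
  subst src src'
  rfl

section

variable {Γ Λ : Type} [Inhabited Γ] [Inhabited Λ] [Fintype Γ] [Fintype Λ]

/-- the machine word reaches the halting word with the contexts `A₀`, `B₀` -/
inductive BadT (M : TM0.Machine Γ Λ) (A₀ B₀ : List (Sy Γ Λ)) : List (Sy Γ Λ) → Prop
  | halt (A B : List (Sy Γ Λ)) (l : Λ) (i : Fin 3) (y x : TL Γ) (h : M l (rd x) = none)
      (hA : A₀ = A ++ [.inl y]) (hB : B₀ = .inl x :: B) : BadT M A₀ B₀ (A ++ lhs l i y x ++ B)
  | step (A B : List (Sy Γ Λ)) (l : Λ) (i : Fin 3) (y x : TL Γ) (p : Λ × TM0.Stmt Γ)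
      (h : M l (rd x) = some p) (hB : BadT M A₀ B₀ (A ++ act p.1 i y x p.2 ++ B)) :
      BadT M A₀ B₀ (A ++ lhs l i y x ++ B)

theorem bad_badT {M : TM0.Machine Γ Λ} {W : List (Sy Γ Λ)} (h : Bad M W) : heads W = 1 →
    ∃ A₀ B₀ : List (Sy Γ Λ), heads A₀ = 0 ∧ heads B₀ = 0 ∧ BadT M A₀ B₀ W := by
  induction h with
  | halt A B l i y x h =>
    intro h1
    rw [heads_append, heads_append, heads_lhs] at h1
    refine ⟨A ++ [.inl y], .inl x :: B, ?_, ?_, BadT.halt A B l i y x h rfl rfl⟩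
    · rw [heads_append]
      have : heads ([.inl y] : List (Sy Γ Λ)) = 0 := by simp [heads]
      omega
    · have : heads (.inl x :: B : List (Sy Γ Λ)) = heads B := by simp [heads]
      omega
  | step A B l i y x p h hB ih =>
    intro h1
    rw [heads_append, heads_append, heads_lhs] at h1
    obtain ⟨A₀, B₀, h2, h3, h4⟩ := ih (by
      rw [heads_append, heads_append, heads_act]
      exact h1)
    exact ⟨A₀, B₀, h2, h3, BadT.step A B l i y x p h h4⟩

theorem mem_letters (W : List (Sy Γ Λ)) {a : ℕ} (h : a ∈ W.map en) : a < nm Γ Λ := by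
  obtain ⟨s, -, rfl⟩ := List.mem_map.1 h
  exact en_lt s

theorem isWord_en (M : TM0.Machine Γ Λ) (Q : Pres) (v : List ℕ) (W : List (Sy Γ Λ)) (hW : W ≠ []) :
    IsWord (pq M Q v).1 (W.map en) := by
  refine ⟨by simpa using hW, ?_⟩
  intro a ha
  have := mem_letters W ha
  change a < nm Γ Λ + 2 + Q.1
  omega

theorem isWord_qw (M : TM0.Machine Γ Λ) (Q : Pres) (v : List ℕ) (A B : List (Sy Γ Λ)) {u : List ℕ}
    (hu : IsWord Q.1 u) : IsWord (pq M Q v).1 (qw A B u) := by
  refine ⟨by simp [qw], ?_⟩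
  intro a ha
  change a < nm Γ Λ + 2 + Q.1
  unfold qw at ha
  simp only [List.mem_append, List.mem_singleton] at ha
  rcases ha with ((h | h) | h) | (h | h)
  · have := mem_letters A h; omega
  · omega
  · obtain ⟨k, hk, rfl⟩ := List.mem_map.1 h
    have := hu.2 k hk
    unfold sft
    omega
  · omega
  · have := mem_letters B h; omega

/-- the vertex `A # u $ B` -/
noncomputable def qv (M : TM0.Machine Γ Λ) (Q : Pres) (v : List ℕ) (A B : List (Sy Γ Λ)) (u : Vertex Q) :
    Vertex (pq M Q v) := ⟨qw A B u.word, isWord_qw M Q v A B u.isWord⟩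

/-- the edge between two such vertices -/
noncomputable def qe (M : TM0.Machine Γ Λ) (Q : Pres) (v : List ℕ) (A B : List (Sy Γ Λ)) (u u' : Vertex Q)
    (e : u ⟶ u') : qv M Q v A B u ⟶ qv M Q v A B u' :=
  (⟨A.map en ++ [nm Γ Λ] ++ (show Edge Q u u' from e).a.map (sft (nm Γ Λ)),
    (show Edge Q u u' from e).b.map (sft (nm Γ Λ)) ++ ([nm Γ Λ + 1] ++ B.map en),
    ((show Edge Q u u' from e).r.1.map (sft (nm Γ Λ)), (show Edge Q u u' from e).r.2.map (sft (nm Γ Λ))),
    List.mem_append.2 (Or.inr (List.mem_map.2 ⟨_, (show Edge Q u u' from e).mem, rfl⟩)),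
    by
      change qw A B u.word = _
      rw [(show Edge Q u u' from e).src]
      simp [qw],
    by
      change qw A B u'.word = _
      rw [(show Edge Q u u' from e).tgt]
      simp [qw]⟩ : Edge (pq M Q v) _ _)

theorem qw_inj {A B : List (Sy Γ Λ)} {u u' : List ℕ} (h : qw A B u = qw A B u') : u = u' := by
  unfold qw at h
  exact map_sft_inj (List.append_cancel_left (List.append_cancel_right h))

theorem vertex_ext {P : Pres} {x y : Vertex P} (h : x.word = y.word) : x = y := by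
  obtain ⟨a, ha⟩ := x
  obtain ⟨b, hb⟩ := y
  dsimp only at h
  subst h
  rfl

omit [Inhabited Γ] [Inhabited Λ] [Fintype Γ] [Fintype Λ] in
theorem hs_le_heads (W : List (Sy Γ Λ)) : hs W ≤ heads W := by
  unfold hs heads
  refine List.countP_mono_left ?_
  intro s _ h
  rcases s with s | s | s
  · simp [isH] at h
  · rfl
  · rfl

/-- the attached vertices -/
def CT (M : TM0.Machine Γ Λ) (Q : Pres) (v : List ℕ) (A₀ B₀ : List (Sy Γ Λ)) : Set (Vertex (pq M Q v)) :=
  {x | ∃ W : List (Sy Γ Λ), x.word = W.map en ∧ heads W = 1 ∧ hs W = 0 ∧ BadT M A₀ B₀ W}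

theorem isWord_mid {Q : Pres} (hQ : Proper Q) {a b : List ℕ} {r : List ℕ × List ℕ} (hr : r ∈ Q.2)
    (h : IsWord Q.1 (a ++ r.1 ++ b)) : IsWord Q.1 (a ++ r.2 ++ b) := by
  have h2 := (hQ r hr).2.1
  refine ⟨?_, ?_⟩
  · intro h3
    simp only [List.append_eq_nil_iff] at h3
    exact h2.1 h3.1.2
  · intro c hc
    simp only [List.mem_append] at hc
    rcases hc with (hc | hc) | hc
    · exact h.2 c (by simp [hc])
    · exact h2.2 c hc
    · exact h.2 c (by simp [hc])

theorem isWord_mid' {Q : Pres} (hQ : Proper Q) {a b : List ℕ} {r : List ℕ × List ℕ} (hr : r ∈ Q.2)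
    (h : IsWord Q.1 (a ++ r.2 ++ b)) : IsWord Q.1 (a ++ r.1 ++ b) := by
  have h2 := (hQ r hr).1
  refine ⟨?_, ?_⟩
  · intro h3
    simp only [List.append_eq_nil_iff] at h3
    exact h2.1 h3.1.2
  · intro c hc
    simp only [List.mem_append] at hc
    rcases hc with (hc | hc) | hc
    · exact h.2 c (by simp [hc])
    · exact h2.2 c hc
    · exact h.2 c (by simp [hc])

theorem att (hprop : S_prop) (hw1 : S_w1) (hw2 : S_w2) (M : TM0.Machine Γ Λ) (Q : Pres) (hQ : Proper Q)
    (v : Vertex Q) (A₀ B₀ : List (Sy Γ Λ)) (hA₀ : heads A₀ = 0) (hB₀ : heads B₀ = 0) :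
    Att (pq M Q v.word) Q v (qv M Q v.word A₀ B₀) (qe M Q v.word A₀ B₀) (CT M Q v.word A₀ B₀) where
  inj u u' h := vertex_ext (qw_inj (congrArg Vertex.word h))
  injI {u u'} e e' h := by
    have h1 := congrArg Edge.a h
    have h2 := congrArg Edge.b h
    have h3 := congrArg Edge.r h
    have k1 : (show Edge Q u u' from e).a = (show Edge Q u u' from e').a :=
      map_sft_inj (List.append_cancel_left h1)
    have k2 : (show Edge Q u u' from e).b = (show Edge Q u u' from e').b :=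
      map_sft_inj (List.append_cancel_right h2)
    have k3 : (show Edge Q u u' from e).r = (show Edge Q u u' from e').r :=
      Prod.ext (map_sft_inj (congrArg Prod.fst h3)) (map_sft_inj (congrArg Prod.snd h3))
    have := edge_ext ⟨u', e⟩ ⟨u', e'⟩ k1 k2 k3
    simpa using this
  out u s := by
    obtain ⟨y, e⟩ := s
    obtain ⟨a, b, r, hr, hu, h1, h2, h3⟩ := (hw2 Γ Λ M Q v.word hQ v.isWord (qv M Q v.word A₀ B₀ u) y A₀ B₀
      u.word rfl hA₀ hB₀ u.isWord).1 e
    refine ⟨⟨a ++ r.2 ++ b, isWord_mid hQ hr (hu ▸ u.isWord)⟩, (⟨a, b, r, hr, hu, rfl⟩ : Edge Q _ _), ?_⟩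
    exact edge_ext _ _ h1 h2 h3
  inn u s := by
    obtain ⟨y, e⟩ := s
    rcases (hw2 Γ Λ M Q v.word hQ v.isWord (qv M Q v.word A₀ B₀ u) y A₀ B₀
      u.word rfl hA₀ hB₀ u.isWord).2 e with ⟨a, b, r, hr, hu, h1, h2, h3⟩ |
        ⟨huv, A', B', l, i, y', x', hM, hA, hB, h1, h2, h3⟩
    · left
      refine ⟨⟨a ++ r.1 ++ b, isWord_mid' hQ hr (hu ▸ u.isWord)⟩, (⟨a, b, r, hr, rfl, hu⟩ : Edge Q _ _), ?_⟩
      exact edge_ext_in _ _ h1 h2 h3
    · right
      refine ⟨vertex_ext huv, ?_⟩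
      have hA' : heads A' = 0 := by
        rw [hA, heads_append] at hA₀
        omega
      have hB' : heads B' = 0 := by
        rw [hB] at hB₀
        have : heads (.inl x' :: B' : List (Sy Γ Λ)) = heads B' := by simp [heads]
        omega
      refine ⟨A' ++ lhs l i y' x' ++ B', ?_, ?_, ?_, BadT.halt A' B' l i y' x' hM hA hB⟩
      · have := (show Edge (pq M Q v.word) y _ from e).src
        rw [this, h1, h2, h3]
        simp
      · rw [heads_append, heads_append, heads_lhs]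
        omega
      · have h5 := hs_le_heads A'
        have h6 := hs_le_heads B'
        rw [hs_append, hs_append, hs_lhs]
        omega
  det x hx s s' := by
    obtain ⟨W, h1, h2, h3, h4⟩ := hx
    obtain ⟨y, e⟩ := s
    obtain ⟨y', e'⟩ := s'
    obtain ⟨A, B, l, i, z, t, k1, k2, k3, k4⟩ := (hw1 Γ Λ M Q v.word hQ v.isWord x y W h1 h2 h3).1 e
    obtain ⟨A', B', l', i', z', t', j1, j2, j3, j4⟩ := (hw1 Γ Λ M Q v.word hQ v.isWord x y' W h1 h2 h3).1 e'
    rw [k1] at j1 h2
    obtain ⟨rfl, rfl, rfl, rfl, rfl, rfl⟩ := lhs_unique h2 j1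
    exact edge_ext _ _ (k2.trans j2.symm) (k3.trans j3.symm) (k4.trans j4.symm)
  bwd x hx y := by
    rintro ⟨e⟩
    obtain ⟨W, h1, h2, h3, h4⟩ := hx
    obtain ⟨A, B, l, i, z, t, p, hM, k1, k2, k3, k4⟩ := (hw1 Γ Λ M Q v.word hQ v.isWord x y W h1 h2 h3).2 e
    rw [k1, heads_append, heads_append, heads_act] at h2
    rw [k1, hs_append, hs_append, hs_act] at h3
    refine ⟨A ++ lhs l i z t ++ B, ?_, ?_, ?_, BadT.step A B l i z t p hM (k1 ▸ h4)⟩
    · have := (show Edge (pq M Q v.word) y _ from e).src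
      rw [this, k2, k3, k4]
      simp
    · rw [heads_append, heads_append, heads_lhs]
      exact h2
    · rw [hs_append, hs_append, hs_lhs]
      exact h3
  dis u := by
    rintro ⟨W, h1, -⟩
    have h2 : nm Γ Λ ∈ W.map en := by
      rw [← h1]
      change nm Γ Λ ∈ qw A₀ B₀ u.word
      simp [qw]
    exact lt_irrefl _ (mem_letters W h2)
  sq1 {x y z t} e₁ e₂ e₃ e₄ h := by
    obtain ⟨a, b, c, u, w, u', w', ⟨h11, h12, h13⟩, ⟨h21, h22, h23⟩, ⟨h31, h32, h33⟩, ⟨h41, h42, h43⟩⟩ := h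
    refine ⟨A₀.map en ++ [nm Γ Λ] ++ a.map (sft (nm Γ Λ)), b.map (sft (nm Γ Λ)),
      c.map (sft (nm Γ Λ)) ++ ([nm Γ Λ + 1] ++ B₀.map en), u.map (sft (nm Γ Λ)), w.map (sft (nm Γ Λ)),
      u'.map (sft (nm Γ Λ)), w'.map (sft (nm Γ Λ)), ⟨?_, ?_, ?_⟩, ⟨?_, ?_, ?_⟩, ⟨?_, ?_, ?_⟩, ⟨?_, ?_, ?_⟩⟩
    · simp [qe, h11]
    · simp [qe, h12]
    · simp [qe, h13]
    · simp [qe, h21]
    · simp [qe, h22]
    · simp [qe, h23]
    · simp [qe, h31]
    · simp [qe, h32]
    · simp [qe, h33]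
    · simp [qe, h41]
    · simp [qe, h42]
    · simp [qe, h43]
  sq2 {x y z t} e₁ e₂ e₃ e₄ h := by
    obtain ⟨a, b, c, u, w, u', w', ⟨h11, h12, h13⟩, ⟨h21, h22, h23⟩, ⟨h31, h32, h33⟩, ⟨h41, h42, h43⟩⟩ := h
    simp only [qe, Prod.mk.injEq] at h11 h12 h13 h21 h22 h23 h31 h32 h33 h41 h42 h43
    obtain ⟨h12, h12'⟩ := h12
    obtain ⟨h22, h22'⟩ := h22
    obtain ⟨h32, h32'⟩ := h32
    obtain ⟨h42, h42'⟩ := h42
    subst h11 h12 h12' h22 h22' h23
    -- the middle part
    obtain ⟨b₁, hb₁⟩ : ∃ b₁ : List ℕ, b = b₁.map (sft (nm Γ Λ)) := by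
      have h5 : ((show Edge Q y t from e₂).a).map (sft (nm Γ Λ)) =
          ((show Edge Q x y from e₁).a ++ (show Edge Q x y from e₁).r.2).map (sft (nm Γ Λ)) ++ b := by
        apply List.append_cancel_left (as := A₀.map en ++ [nm Γ Λ])
        rw [h21]
        simp
      obtain ⟨c1, c2, -, -, h6⟩ := List.map_eq_append_iff.1 h5
      exact ⟨c2, h6.symm⟩
    subst hb₁
    have g21 : (show Edge Q y t from e₂).a = (show Edge Q x y from e₁).a ++ (show Edge Q x y from e₁).r.2 ++ b₁ := by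
      apply map_sft_inj (N := nm Γ Λ)
      apply List.append_cancel_left (as := A₀.map en ++ [nm Γ Λ])
      rw [h21]
      simp
    have g13 : (show Edge Q x y from e₁).b = b₁ ++ (show Edge Q y t from e₂).r.1 ++ (show Edge Q y t from e₂).b := by
      apply map_sft_inj (N := nm Γ Λ)
      apply List.append_cancel_right (bs := ([nm Γ Λ + 1] ++ B₀.map en))
      rw [h13]
      simp
    have g31 : (show Edge Q x z from e₃).a = (show Edge Q x y from e₁).a ++ (show Edge Q x y from e₁).r.1 ++ b₁ := by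
      apply map_sft_inj (N := nm Γ Λ)
      apply List.append_cancel_left (as := A₀.map en ++ [nm Γ Λ])
      rw [h31]
      simp
    have g32 : (show Edge Q x z from e₃).r = (show Edge Q y t from e₂).r :=
      Prod.ext (map_sft_inj h32) (map_sft_inj h32')
    have g33 : (show Edge Q x z from e₃).b = (show Edge Q y t from e₂).b := by
      apply map_sft_inj (N := nm Γ Λ)
      apply List.append_cancel_right (bs := ([nm Γ Λ + 1] ++ B₀.map en))
      exact h33
    have g41 : (show Edge Q z t from e₄).a = (show Edge Q x y from e₁).a := by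
      apply map_sft_inj (N := nm Γ Λ)
      apply List.append_cancel_left (as := A₀.map en ++ [nm Γ Λ])
      exact h41
    have g42 : (show Edge Q z t from e₄).r = (show Edge Q x y from e₁).r :=
      Prod.ext (map_sft_inj h42) (map_sft_inj h42')
    have g43 : (show Edge Q z t from e₄).b = b₁ ++ (show Edge Q y t from e₂).r.2 ++ (show Edge Q y t from e₂).b := by
      apply map_sft_inj (N := nm Γ Λ)
      apply List.append_cancel_right (bs := ([nm Γ Λ + 1] ++ B₀.map en))
      rw [h43]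
      simp
    exact ⟨(show Edge Q x y from e₁).a, b₁, (show Edge Q y t from e₂).b, (show Edge Q x y from e₁).r.1,
      (show Edge Q x y from e₁).r.2, (show Edge Q y t from e₂).r.1, (show Edge Q y t from e₂).r.2,
      ⟨rfl, rfl, g13⟩, ⟨g21, rfl, rfl⟩, ⟨g31, g32, g33⟩, ⟨g41, g42, g43⟩⟩
  ne r hr := ((hprop Γ Λ M Q v.word hQ v.isWord) r hr).1.1

theorem mem_mrules (M : TM0.Machine Γ Λ) (v : List ℕ) (l : Λ) (i : Fin 3) (y x : TL Γ) :
    ((lhs l i y x).map en, rhq M v l i y x) ∈ mrules M v :=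
  List.mem_map.2 ⟨((l, i), (y, x)), by simp, rfl⟩

/-- the flow of an attached vertex -/
theorem flow_of (M : TM0.Machine Γ Λ) (Q : Pres) (v : Vertex Q) {A₀ B₀ W : List (Sy Γ Λ)}
    (hB : BadT M A₀ B₀ W) : ∀ x : Vertex (pq M Q v.word), x.word = W.map en → heads W = 1 → hs W = 0 →
    ∃ f : pt x ⟶ pt (qv M Q v.word A₀ B₀ v),
      Flow (qv M Q v.word A₀ B₀) v (CT M Q v.word A₀ B₀) x f := by
  induction hB with
  | halt A B l i y x h hA hB =>
    intro w hw h1 h2
    have hr : rhq M v.word l i y x = [en (.inl y : Sy Γ Λ), nm Γ Λ] ++ v.word.map (sft (nm Γ Λ)) ++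
        [nm Γ Λ + 1, en (.inl x : Sy Γ Λ)] := by
      unfold rhq
      rw [h]
    have e : Edge (pq M Q v.word) w (qv M Q v.word A₀ B₀ v) :=
      ⟨A.map en, B.map en, ((lhs l i y x).map en, rhq M v.word l i y x),
        List.mem_append.2 (Or.inl (mem_mrules M v.word l i y x)), by rw [hw]; simp, by
          change qw A₀ B₀ v.word = _
          rw [hr, hA, hB]
          simp [qw]⟩
    exact ⟨_, Flow.base (show w ⟶ qv M Q v.word A₀ B₀ v from e)⟩
  | step A B l i y x p h hB ih =>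
    intro w hw h1 h2
    have hr : rhq M v.word l i y x = (act p.1 i y x p.2).map en := by
      unfold rhq
      rw [h]
    rw [heads_append, heads_append, heads_lhs] at h1
    rw [hs_append, hs_append, hs_lhs] at h2
    have k1 : heads (A ++ act p.1 i y x p.2 ++ B) = 1 := by
      rw [heads_append, heads_append, heads_act]; exact h1
    have k2 : hs (A ++ act p.1 i y x p.2 ++ B) = 0 := by
      rw [hs_append, hs_append, hs_act]; exact h2
    have hne : A ++ act p.1 i y x p.2 ++ B ≠ [] := by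
      intro h0
      rw [h0] at k1
      simp [heads] at k1
    let w' : Vertex (pq M Q v.word) := ⟨_, isWord_en M Q v.word _ hne⟩
    obtain ⟨f, hf⟩ := ih w' rfl k1 k2
    have hC : w' ∈ CT M Q v.word A₀ B₀ := ⟨_, rfl, k1, k2, hB⟩
    have e : Edge (pq M Q v.word) w w' :=
      ⟨A.map en, B.map en, ((lhs l i y x).map en, rhq M v.word l i y x),
        List.mem_append.2 (Or.inl (mem_mrules M v.word l i y x)), by rw [hw]; simp, by
          change (A ++ act p.1 i y x p.2 ++ B).map en = _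
          rw [hr]
          simp⟩
    exact ⟨_, Flow.step (show w ⟶ w' from e) hC hf⟩

/-- **If the machine halts, the diagram group is the one of `Q`.** -/
theorem iso_halt (hprop : S_prop) (hw1 : S_w1) (hw2 : S_w2) (M : TM0.Machine Γ Λ) (Q : Pres) (hQ : Proper Q)
    (v : Vertex Q) (W : List (Sy Γ Λ)) (hW : Bad M W) (h1 : heads W = 1) (h2 : hs W = 0)
    (x : Vertex (pq M Q v.word)) (hx : x.word = W.map en) :
    Nonempty (DiagramGroup Q v ≃* DiagramGroup (pq M Q v.word) x) := by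
  obtain ⟨A₀, B₀, k1, k2, k3⟩ := bad_badT hW h1
  obtain ⟨f, hf⟩ := flow_of M Q v k3 x hx h1 h2
  exact iso_of_att (att hprop hw1 hw2 M Q hQ v A₀ B₀ k1 k2) ⟨W, hx, h1, h2, k3⟩ hf

end

end Pool.Agent.Y50.RD
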