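import Pool.Agent.Y944.RD.Dec

set_option autoImplicit false

/-! The search for a repetition, for semi-decision procedures (after `Pool.Agent.Y944.RD.Dec`). -/

namespace Pool.Agent.Y50.RD

open Pool.Agent.Y944.RD.Dec

/-- If the sequences which never reach the letter `N` and never repeat a word are semi-decided (never accepting
a sequence which reaches `N`), then the complement of the set of the sequences which reach `N` is recursively
enumerable. -/
theorem semi (w : ℕ → List ℕ) (nx : List ℕ → List ℕ) (N : ℕ) (f : ℕ →. Unit)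
    (hw : Computable w) (hnx : Primrec nx) (hf : Partrec f)
    (h1 : ∀ n i, N ∈ nx^[i] (w n) → nx^[i + 1] (w n) = nx^[i] (w n))
    (h2 : ∀ n, (∃ i, N ∈ nx^[i] (w n)) → ¬ (f n).Dom)
    (h3 : ∀ n, (∀ i, N ∉ nx^[i] (w n)) → (∀ i j, i < j → nx^[i] (w n) ≠ nx^[j] (w n)) → (f n).Dom) :
    REPred fun n => ¬ ∃ i, N ∈ nx^[i] (w n) := by
  classical
  let F : ℕ → ℕ → Option Bool := fun n k =>
    G N (false, (k.unpair.1, k.unpair.2), (nx^[k.unpair.1] (w n), nx^[k.unpair.2] (w n)))
  have hit : Primrec₂ fun (m : ℕ) (l : List ℕ) => nx^[m] l :=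
    (Primrec.nat_iterate (f := fun p : ℕ × List ℕ => p.1) (g := fun p => p.2)
      (h := fun _ l => nx l) Primrec.fst Primrec.snd (hnx.comp Primrec.snd).to₂).to₂
  have hF : Computable₂ F := by
    have hk1 : Computable fun p : ℕ × ℕ => p.2.unpair.1 :=
      (Primrec.fst.comp (Primrec.unpair.comp Primrec.snd)).to_comp
    have hk2 : Computable fun p : ℕ × ℕ => p.2.unpair.2 :=
      (Primrec.snd.comp (Primrec.unpair.comp Primrec.snd)).to_comp
    have hwn : Computable fun p : ℕ × ℕ => w p.1 := hw.comp Computable.fst
    have hfn : Computable fun _ : ℕ × ℕ => false := Computable.const false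
    have hi1 : Computable fun p : ℕ × ℕ => nx^[p.2.unpair.1] (w p.1) :=
      hit.to_comp.comp hk1 hwn
    have hi2 : Computable fun p : ℕ × ℕ => nx^[p.2.unpair.2] (w p.1) :=
      hit.to_comp.comp hk2 hwn
    exact (G_prim N).to_comp.comp (hfn.pair ((hk1.pair hk2).pair (hi1.pair hi2)))
  have hF_apply : ∀ n k, F n k = if k.unpair.1 < k.unpair.2 ∧
      nx^[k.unpair.1] (w n) = nx^[k.unpair.2] (w n) then
        some (decide (N ∈ nx^[k.unpair.1] (w n))) else none := by
    intro n k
    change (if false = true then some false else _) = _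
    rw [if_neg (by decide)]
  -- once the letter occurs the word is constant
  have hconst : ∀ n i, N ∈ nx^[i] (w n) → ∀ t, nx^[i + t] (w n) = nx^[i] (w n) := by
    intro n i hi t
    induction t with
    | zero => rfl
    | succ t ih =>
      have h := h1 n (i + t) (by rw [ih]; exact hi)
      rw [← add_assoc, h, ih]
  have hcorr : ∀ n k b, b ∈ F n k → (b = true ↔ ∃ i, N ∈ nx^[i] (w n)) := by
    intro n k b hb
    rw [hF_apply] at hb
    by_cases hij : k.unpair.1 < k.unpair.2 ∧ nx^[k.unpair.1] (w n) = nx^[k.unpair.2] (w n)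
    · rw [if_pos hij, Option.mem_some_iff] at hb
      subst hb
      rw [decide_eq_true_iff]
      obtain ⟨hlt, heq⟩ := hij
      generalize k.unpair.1 = i at hlt heq
      generalize k.unpair.2 = j at hlt heq
      constructor
      · intro h; exact ⟨i, h⟩
      · rintro ⟨m, hm⟩
        have hper : ∀ t, nx^[i + t * (j - i)] (w n) = nx^[i] (w n) := by
          intro t
          induction t with
          | zero => rw [zero_mul, add_zero]
          | succ t ih =>
            have e1 : i + (t + 1) * (j - i) = (j - i) + (i + t * (j - i)) := by ring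
            have e2 : (j - i) + i = j := Nat.sub_add_cancel hlt.le
            rw [e1, Function.iterate_add_apply, ih, ← Function.iterate_add_apply, e2, ← heq]
        have hge : m ≤ i + m * (j - i) := by
          have : 1 ≤ j - i := by omega
          calc m = m * 1 := (mul_one m).symm
            _ ≤ m * (j - i) := Nat.mul_le_mul_left _ this
            _ ≤ _ := Nat.le_add_left _ _
        obtain ⟨s, hs⟩ := Nat.exists_eq_add_of_le hge
        have hc := hconst n m hm s
        rw [← hs, hper] at hc
        rw [hc]
        exact hm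
    · rw [if_neg hij] at hb
      exact absurd hb (by simp)
  have hpart : Partrec fun n => Nat.rfindOpt (F n) := Partrec.rfindOpt hF
  have hcond : Partrec fun n => (Nat.rfindOpt (F n)).bind
      fun b => (cond b Part.none (Part.some ()) : Part Unit) := by
    refine Partrec.bind hpart ?_
    exact Partrec.cond Computable.snd Partrec.none (Computable.const ()).partrec
  have hcdom : ∀ n (x : Unit), x ∈ ((Nat.rfindOpt (F n)).bind
      fun b => (cond b Part.none (Part.some ()) : Part Unit)) ↔ false ∈ Nat.rfindOpt (F n) := by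
    intro n x
    rw [Part.mem_bind_iff]
    constructor
    · rintro ⟨b, hb, hx⟩
      cases b
      · exact hb
      · exact absurd hx (Part.notMem_none x)
    · intro h
      exact ⟨false, h, by cases x; exact Part.mem_some _⟩
  obtain ⟨k, hk, hk'⟩ := Partrec.merge hf hcond (fun _ x _ y _ => Subsingleton.elim x y)
  refine REPred.of_eq hk.dom_re fun n => ?_
  rw [Part.dom_iff_mem]
  constructor
  · rintro ⟨x, hx⟩ hK
    rcases (hk' n x).1 hx with h | h
    · exact h2 n hK (Part.dom_iff_mem.2 ⟨x, h⟩)
    · rw [hcdom] at h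
      obtain ⟨m, hm⟩ := Nat.rfindOpt_spec h
      have := (hcorr n m _ hm).2 hK
      exact absurd this (by decide)
  · intro hK
    by_cases hrep : ∃ i j, i < j ∧ nx^[i] (w n) = nx^[j] (w n)
    · obtain ⟨i, j, hij, heq⟩ := hrep
      have hd : (Nat.rfindOpt (F n)).Dom := by
        rw [Nat.rfindOpt_dom]
        refine ⟨Nat.pair i j, decide (N ∈ nx^[i] (w n)), ?_⟩
        rw [hF_apply, Nat.unpair_pair, if_pos ⟨hij, heq⟩]
        rfl
      obtain ⟨b, hb⟩ := Part.dom_iff_mem.1 hd
      obtain ⟨m, hm⟩ := Nat.rfindOpt_spec hb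
      have hbf : b = false := by
        cases b
        · rfl
        · exact absurd ((hcorr n m _ hm).1 rfl) hK
      subst hbf
      exact ⟨(), (hk' n ()).2 (Or.inr ((hcdom n ()).2 hb))⟩
    · push Not at hrep hK
      obtain ⟨x, hx⟩ := Part.dom_iff_mem.1 (h3 n hK hrep)
      exact ⟨x, (hk' n x).2 (Or.inl hx)⟩

end Pool.Agent.Y50.RD
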