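import Pool.Agent.H333R3.DG.Machine
import Pool.Agent.H333R3.DG.Sim

/-! Diagram groups: the presentation of a machine which starts another presentation `Q` when it
halts. Definitions and statements. -/

set_option autoImplicit false

namespace Pool.Agent.Y50.RD

open Turing CategoryTheory
open Pool.Agent.H333R3.DG

section Defs

variable {Γ Λ : Type} [Inhabited Γ] [Inhabited Λ] [Fintype Γ] [Fintype Λ]

/-- number of the letters of the machine -/
noncomputable def nm (Γ Λ : Type) [Fintype Γ] [Fintype Λ] : ℕ := Fintype.card (Sy Γ Λ)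

/-- the letter of `Q` with number `k`, in the large alphabet -/
def sft (N k : ℕ) : ℕ := k + (N + 2)

/-- the right-hand sides of the machine rules: the halting machine writes `# v $` between the two
letters `y` and `x` -/
noncomputable def rhq (M : TM0.Machine Γ Λ) (v : List ℕ) (l : Λ) (i : Fin 3) (y x : TL Γ) : List ℕ :=
  match M l (rd x) with
  | none => [en (.inl y : Sy Γ Λ), nm Γ Λ] ++ v.map (sft (nm Γ Λ)) ++
      [nm Γ Λ + 1, en (.inl x : Sy Γ Λ)]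
  | some p => (act p.1 i y x p.2).map en

/-- the machine rules -/
noncomputable def mrules (M : TM0.Machine Γ Λ) (v : List ℕ) : List (List ℕ × List ℕ) :=
  (Finset.univ : Finset ((Λ × Fin 3) × (TL Γ × TL Γ))).toList.map
    (fun p => ((lhs p.1.1 p.1.2 p.2.1 p.2.2).map en, rhq M v p.1.1 p.1.2 p.2.1 p.2.2))

/-- the rules of `Q` in the large alphabet -/
def qrules (N : ℕ) (Q : Pres) : List (List ℕ × List ℕ) :=
  Q.2.map (fun r => (r.1.map (sft N), r.2.map (sft N)))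

/-- the presentation -/
noncomputable def pq (M : TM0.Machine Γ Λ) (Q : Pres) (v : List ℕ) : Pres :=
  (nm Γ Λ + 2 + Q.1, mrules M v ++ qrules (nm Γ Λ) Q)

/-- the word `A # u $ B` -/
noncomputable def qw (A B : List (Sy Γ Λ)) (u : List ℕ) : List ℕ :=
  (A.map en ++ [nm Γ Λ]) ++ u.map (sft (nm Γ Λ)) ++ ([nm Γ Λ + 1] ++ B.map en)

/-- the next word: the first place where the left-hand side (three letters) of a rule of the table `T`
occurs is rewritten -/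
def nxt (T : List (List ℕ × List ℕ)) : List ℕ → List ℕ
  | [] => []
  | b :: l => match T.find? (fun r => decide (r.1 = b :: l.take 2)) with
    | some r => r.2 ++ l.drop 2
    | none => b :: nxt T l

end Defs

/-- RD-PROP -/
def S_prop : Prop := ∀ (Γ Λ : Type) [Inhabited Γ] [Inhabited Λ] [Fintype Γ] [Fintype Λ]
  (M : TM0.Machine Γ Λ) (Q : Pres) (v : List ℕ), Proper Q → IsWord Q.1 v → Proper (pq M Q v)

/-- RD-W1, edges at machine words -/
def S_w1 : Prop := ∀ (Γ Λ : Type) [Inhabited Γ] [Inhabited Λ] [Fintype Γ] [Fintype Λ]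
  (M : TM0.Machine Γ Λ) (Q : Pres) (v : List ℕ), Proper Q → IsWord Q.1 v →
  ∀ (x y : Vertex (pq M Q v)) (W : List (Sy Γ Λ)), x.word = W.map en → heads W = 1 → hs W = 0 →
  (∀ e : Edge (pq M Q v) x y, ∃ (A B : List (Sy Γ Λ)) (l : Λ) (i : Fin 3) (y' x' : TL Γ),
    W = A ++ lhs l i y' x' ++ B ∧ e.a = A.map en ∧ e.b = B.map en ∧
    e.r = ((lhs l i y' x').map en, rhq M v l i y' x')) ∧
  (∀ e : Edge (pq M Q v) y x, ∃ (A B : List (Sy Γ Λ)) (l : Λ) (i : Fin 3) (y' x' : TL Γ)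
    (p : Λ × TM0.Stmt Γ), M l (rd x') = some p ∧
    W = A ++ act p.1 i y' x' p.2 ++ B ∧ e.a = A.map en ∧ e.b = B.map en ∧
    e.r = ((lhs l i y' x').map en, (act p.1 i y' x' p.2).map en))

/-- RD-W2, edges at the words `A # u $ B` -/
def S_w2 : Prop := ∀ (Γ Λ : Type) [Inhabited Γ] [Inhabited Λ] [Fintype Γ] [Fintype Λ]
  (M : TM0.Machine Γ Λ) (Q : Pres) (v : List ℕ), Proper Q → IsWord Q.1 v →
  ∀ (x y : Vertex (pq M Q v)) (A B : List (Sy Γ Λ)) (u : List ℕ), x.word = qw A B u →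
    heads A = 0 → heads B = 0 → IsWord Q.1 u →
  (∀ e : Edge (pq M Q v) x y, ∃ (a b : List ℕ) (r : List ℕ × List ℕ), r ∈ Q.2 ∧
    u = a ++ r.1 ++ b ∧ e.a = A.map en ++ [nm Γ Λ] ++ a.map (sft (nm Γ Λ)) ∧
    e.b = b.map (sft (nm Γ Λ)) ++ ([nm Γ Λ + 1] ++ B.map en) ∧
    e.r = (r.1.map (sft (nm Γ Λ)), r.2.map (sft (nm Γ Λ)))) ∧
  (∀ e : Edge (pq M Q v) y x, (∃ (a b : List ℕ) (r : List ℕ × List ℕ), r ∈ Q.2 ∧
    u = a ++ r.2 ++ b ∧ e.a = A.map en ++ [nm Γ Λ] ++ a.map (sft (nm Γ Λ)) ∧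
    e.b = b.map (sft (nm Γ Λ)) ++ ([nm Γ Λ + 1] ++ B.map en) ∧
    e.r = (r.1.map (sft (nm Γ Λ)), r.2.map (sft (nm Γ Λ)))) ∨
   (u = v ∧ ∃ (A' B' : List (Sy Γ Λ)) (l : Λ) (i : Fin 3) (y' x' : TL Γ), M l (rd x') = none ∧
    A = A' ++ [.inl y'] ∧ B = .inl x' :: B' ∧ e.a = A'.map en ∧ e.b = B'.map en ∧
    e.r = ((lhs l i y' x').map en, rhq M v l i y' x')))

/-- RD-NXT, the next word of a machine word, and of a word without head letter -/
def S_nxt : Prop := ∀ (Γ Λ : Type) [Inhabited Γ] [Inhabited Λ] [Fintype Γ] [Fintype Λ]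
  (M : TM0.Machine Γ Λ) (v : List ℕ),
  (∀ (A B : List (Sy Γ Λ)) (l : Λ) (i : Fin 3) (y x : TL Γ), heads A = 0 →
    nxt (mrules M v) ((A ++ lhs l i y x ++ B).map en) = A.map en ++ rhq M v l i y x ++ B.map en) ∧
  (∀ w : List ℕ, (∀ (l : Λ) (i : Fin 3), en (sq l i : Sy Γ Λ) ∉ w) → nxt (mrules M v) w = w)

/-- RD-PRIM -/
def S_prim : Prop := ∀ T : List (List ℕ × List ℕ), Primrec (nxt T)

/-- RD-DEC, decision by search of a repetition -/
def S_dec : Prop := ∀ (w : ℕ → List ℕ) (nx : List ℕ → List ℕ) (N : ℕ) (f : ℕ → Bool),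
  Computable w → Primrec nx → Computable f →
  (∀ n i, N ∈ nx^[i] (w n) → nx^[i + 1] (w n) = nx^[i] (w n)) →
  (∀ n, (∃ i, N ∈ nx^[i] (w n)) → f n = false) →
  (∀ n, (∀ i, N ∉ nx^[i] (w n)) → (∀ i j, i < j → nx^[i] (w n) ≠ nx^[j] (w n)) → f n = true) →
  ComputablePred fun n => ∃ i, N ∈ nx^[i] (w n)

end Pool.Agent.Y50.RD
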