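import Pool.Agent.Y50.RD.Orb
import Pool.Agent.H333R3.DG.Final
import Pool.Agent.Y702.RD.Prop
import Pool.Agent.Y93.RD.W1
import Pool.Agent.Y684.RD.W2
import Pool.Agent.Y435.RD.Nxt
import Pool.Agent.Y944.RD.Prim
import Pool.Agent.Y50.RD.Semi

set_option autoImplicit false

/-! The Rice theorem for diagram groups. -/

namespace Pool.Agent.Y50.RD

open Turing CategoryTheory
open Turing.PartrecToTM2 (trNat trList)
open Pool.Agent.H333R3.DG
open Pool.Agent.Helper462.OneRule (u u_partrec u_not_computable sym exists_machine digits_computable)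

/-- A property of the trivial group which fails for some diagram group is not semi-decidable. -/
theorem rice_semi (Pr : (G : Type) → [Group G] → Prop)
    (hinv : ∀ (G H : Type) [Group G] [Group H], Nonempty (G ≃* H) → Pr G → Pr H)
    (h0 : Pr PUnit)
    (Q : Pres) (hQ : Proper Q) (v : Vertex Q) (hv : ¬ Pr (DiagramGroup Q v)) :
    ∃ P : Pres, Proper P ∧ ∀ f : Pres × List ℕ →. Unit, Partrec f →
      ∃ w : Vertex P, ¬ ((f (P, w.word)).Dom ↔ Pr (DiagramGroup P w)) := by
  classical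
  have hprop : S_prop := Pool.Agent.Y702.RD.t
  have hw1 : S_w1 := Pool.Agent.Y93.RD.t
  have hw2 : S_w2 := Pool.Agent.Y684.RD.t
  have hnxt : S_nxt := Pool.Agent.Y435.RD.t
  obtain ⟨Λ, i1, i2, M, hM⟩ := exists_machine
  have fK : Finite PartrecToTM2.K' := by
    refine Finite.of_injective (fun k : PartrecToTM2.K' => match k with
      | .main => (0 : Fin 4) | .rev => 1 | .aux => 2 | .stack => 3) ?_
    intro a b h
    cases a <;> cases b <;> simp_all
  have fG : Finite (TM2to1.Γ' PartrecToTM2.K' (fun _ => PartrecToTM2.Γ')) :=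
    inferInstanceAs (Finite (Bool × (PartrecToTM2.K' → Option PartrecToTM2.Γ')))
  let _ : Fintype (TM2to1.Γ' PartrecToTM2.K' (fun _ => PartrecToTM2.Γ')) := Fintype.ofFinite _
  let _ : Fintype Λ := Fintype.ofFinite _
  refine ⟨pq M Q v.word, hprop _ _ M Q v.word hQ v.isWord, fun f hf => ?_⟩
  by_contra hcon
  push Not at hcon
  let inp : ℕ → List (TM2to1.Γ' PartrecToTM2.K' (fun _ => PartrecToTM2.Γ')) :=
    fun n => sym true .cons :: (trNat n).reverse.map (sym false)
  let cw : ℕ → List (Sy (TM2to1.Γ' PartrecToTM2.K' (fun _ => PartrecToTM2.Γ')) Λ) :=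
    fun n => conf [] default 0 (inp n)
  have hne : ∀ n, cw n ≠ [] := fun n => by simp [cw, conf]
  let w : ℕ → Vertex (pq M Q v.word) := fun n => ⟨(cw n).map en, isWord_en M Q v.word _ (hne n)⟩
  have hbad : ∀ n, (u n).Dom ↔ ∃ i, nm (TM2to1.Γ' PartrecToTM2.K' (fun _ => PartrecToTM2.Γ')) Λ ∈
      (nxt (mrules M v.word))^[i] (w n).word := by
    intro n
    rw [← hM n, ← bad_iff_orbit hnxt M v.word [] default 0 (inp n)]
    exact (bad_iff M [] default 0 (inp n)).symm
  have hw : Computable fun n => (w n).word := by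
    let κ : PartrecToTM2.Γ' → ℕ := fun a =>
      en (Γ := TM2to1.Γ' PartrecToTM2.K' (fun _ => PartrecToTM2.Γ')) (Λ := Λ)
        (.inl (.inr (sym false a)))
    have h1 := digits_computable κ
    have h2 : Computable (fun n : ℕ => ((trNat n).map κ).reverse) :=
      Primrec.list_reverse.to_comp.comp h1
    have h3 : Primrec (fun l : List ℕ =>
        ([en (Γ := TM2to1.Γ' PartrecToTM2.K' (fun _ => PartrecToTM2.Γ')) (Λ := Λ)
            (.inl (.inl false)),
          en (Γ := TM2to1.Γ' PartrecToTM2.K' (fun _ => PartrecToTM2.Γ')) (Λ := Λ)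
            (sq default 0),
          en (Γ := TM2to1.Γ' PartrecToTM2.K' (fun _ => PartrecToTM2.Γ')) (Λ := Λ)
            (.inl (.inr (sym true .cons)))] ++ (l ++
          [en (Γ := TM2to1.Γ' PartrecToTM2.K' (fun _ => PartrecToTM2.Γ')) (Λ := Λ)
            (.inl (.inl true))]))) :=
      Primrec.list_append.comp (Primrec.const _)
        (Primrec.list_append.comp Primrec.id (Primrec.const _))
    refine (h3.to_comp.comp h2).of_eq fun n => ?_
    simp [w, cw, conf, inp, κ, List.map_reverse, Function.comp_def]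
  have hF : Partrec fun n => f (pq M Q v.word, (w n).word) :=
    hf.comp ((Computable.const (pq M Q v.word)).pair hw)
  have htriv : ∀ (G : Type) [Group G], Subsingleton G → Pr G := by
    intro G _ hG
    refine hinv PUnit G ⟨?_⟩ h0
    exact ⟨⟨fun _ => 1, fun _ => PUnit.unit, fun _ => rfl, fun _ => Subsingleton.elim _ _⟩,
      fun _ _ => Subsingleton.elim _ _⟩
  apply u_not_computable
  refine ComputablePred.computable_iff_re_compl_re'.2 ⟨u_partrec.dom_re, ?_⟩
  have hdec := semi (fun n => (w n).word) (nxt (mrules M v.word))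
    (nm (TM2to1.Γ' PartrecToTM2.K' (fun _ => PartrecToTM2.Γ')) Λ)
    (fun n => f (pq M Q v.word, (w n).word)) hw
    (Pool.Agent.Y944.RD.Prim.t (mrules M v.word)) hF ?_ ?_ ?_
  · refine REPred.of_eq hdec fun n => ?_
    rw [hbad n]
  · intro n i hi
    exact orbit_fix hnxt M v.word [] default 0 (inp n) i hi
  · intro n hn h2
    have h1 : Bad M (cw n) := (bad_iff_orbit hnxt M v.word [] default 0 (inp n)).2 hn
    obtain ⟨hiso⟩ := iso_halt hprop hw1 hw2 M Q hQ v (cw n) h1 (heads_conf _ _ _ _) (hs_conf _ _ _ _)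
      (w n) rfl
    exact hv (hinv _ _ ⟨hiso.symm⟩ ((hcon (w n)).1 h2))
  · intro n h1 h2
    have h3 : ¬ Bad M (cw n) := by
      intro h3
      obtain ⟨i, hi⟩ := (bad_iff_orbit hnxt M v.word [] default 0 (inp n)).1 h3
      exact h1 i hi
    exact (hcon (w n)).2 (htriv _ (triv hw1 hnxt M Q hQ v.word v.isWord (x := w n)
      ⟨cw n, rfl, heads_conf _ _ _ _, hs_conf _ _ _ _, h3⟩ h2))

/-- **The Rice theorem for diagram groups.** -/
theorem rice (Pr : (G : Type) → [Group G] → Prop)
    (hinv : ∀ (G H : Type) [Group G] [Group H], Nonempty (G ≃* H) → Pr G → Pr H)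
    (h1 : ∃ (Q : Pres) (v : Vertex Q), Proper Q ∧ Pr (DiagramGroup Q v))
    (h2 : ∃ (Q : Pres) (v : Vertex Q), Proper Q ∧ ¬ Pr (DiagramGroup Q v)) :
    ∃ P : Pres, Proper P ∧
      (∀ f : Pres × List ℕ →. Bool, Partrec f →
        ∃ w : Vertex P, ¬ ∃ b ∈ f (P, w.word), (b = true ↔ Pr (DiagramGroup P w))) ∧
      (Pr PUnit → ∀ f : Pres × List ℕ →. Unit, Partrec f →
        ∃ w : Vertex P, ¬ ((f (P, w.word)).Dom ↔ Pr (DiagramGroup P w))) := by
  have hcond : ∀ f : Pres × List ℕ →. Bool, Partrec f → ∀ c : Bool,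
      Partrec fun a => (f a).bind fun b => (cond (xor b c) (Part.some ()) Part.none : Part Unit) := by
    intro f hf c
    refine Partrec.bind hf ?_
    refine Partrec.cond ?_ (Computable.const ()).partrec Partrec.none
    exact (Primrec.dom_bool₂ xor).to_comp.comp Computable.snd (Computable.const c)
  have hdom : ∀ (f : Pres × List ℕ →. Bool) (c : Bool) (a : Pres × List ℕ) (b : Bool), b ∈ f a →
      (((f a).bind fun b => (cond (xor b c) (Part.some ()) Part.none : Part Unit)).Dom ↔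
        xor b c = true) := by
    intro f c a b hb
    rw [Part.eq_some_iff.2 hb, Part.bind_some]
    cases hbc : xor b c
    · simp
    · simp
  by_cases h0 : Pr PUnit
  · obtain ⟨Q, v, hQ, hv⟩ := h2
    obtain ⟨P, hP, h⟩ := rice_semi Pr hinv h0 Q hQ v hv
    refine ⟨P, hP, fun f hf => ?_, fun _ => h⟩
    obtain ⟨w, hw⟩ := h _ (hcond f hf false)
    refine ⟨w, fun ⟨b, hb, hbP⟩ => hw ?_⟩
    rw [hdom f false _ b hb, ← hbP, Bool.xor_false]
  · obtain ⟨Q, v, hQ, hv⟩ := h1
    obtain ⟨P, hP, h⟩ := rice_semi (fun G _ => ¬ Pr G)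
      (fun G H _ _ ⟨e⟩ hG hH => hG (hinv H G ⟨e.symm⟩ hH)) h0 Q hQ v (not_not.2 hv)
    refine ⟨P, hP, fun f hf => ?_, fun h => absurd h h0⟩
    obtain ⟨w, hw⟩ := h _ (hcond f hf true)
    refine ⟨w, fun ⟨b, hb, hbP⟩ => hw ?_⟩
    rw [hdom f true _ b hb, ← hbP]
    cases b <;> simp

end Pool.Agent.Y50.RD
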