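import Pool.Agent.Y50.RD.Emb

set_option autoImplicit false

/-! Never halting machine words: orbits of the next word function and loops. -/

namespace Pool.Agent.Y50.RD

open Turing CategoryTheory
open Pool.Agent.H333R3.DG

section

variable {Γ Λ : Type} [Inhabited Γ] [Inhabited Λ] [Fintype Γ] [Fintype Λ]

/-- the vertices of never halting machine words -/
def runq (M : TM0.Machine Γ Λ) (Q : Pres) (v : List ℕ) : Set (Vertex (pq M Q v)) :=
  {x | ∃ W : List (Sy Γ Λ), x.word = W.map en ∧ heads W = 1 ∧ hs W = 0 ∧ ¬ Bad M W}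

theorem runq_fwd (hw1 : S_w1) (hnxt : S_nxt) (M : TM0.Machine Γ Λ) (Q : Pres) (hQ : Proper Q) (v : List ℕ)
    (hv : IsWord Q.1 v) {x y : Vertex (pq M Q v)} (hx : x ∈ runq M Q v) (e : x ⟶ y) :
    y ∈ runq M Q v ∧ y.word = nxt (mrules M v) x.word := by
  obtain ⟨W, h1, h2, h3, h4⟩ := hx
  obtain ⟨A, B, l, i, z, t, k1, k2, k3, k4⟩ := (hw1 Γ Λ M Q v hQ hv x y W h1 h2 h3).1 e
  have hy := (show Edge (pq M Q v) x y from e).tgt
  rw [k2, k3, k4] at hy
  have hA : heads A = 0 := by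
    rw [k1, heads_append, heads_append, heads_lhs] at h2
    omega
  have hn := (hnxt Γ Λ M v).1 A B l i z t hA
  refine ⟨?_, ?_⟩
  · rcases hM : M l (rd t) with _ | p
    · exact absurd (k1 ▸ Bad.halt A B l i z t hM) h4
    · have hr : rhq M v l i z t = (act p.1 i z t p.2).map en := by
        unfold rhq
        rw [hM]
      rw [hr] at hy
      refine ⟨A ++ act p.1 i z t p.2 ++ B, by rw [hy]; simp, ?_, ?_, ?_⟩
      · rw [k1, heads_append, heads_append, heads_lhs] at h2
        rw [heads_append, heads_append, heads_act]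
        exact h2
      · rw [k1, hs_append, hs_append, hs_lhs] at h3
        rw [hs_append, hs_append, hs_act]
        exact h3
      · intro hB
        exact h4 (k1 ▸ Bad.step A B l i z t p hM hB)
  · rw [hy, h1, k1, hn]

theorem runq_det (hw1 : S_w1) (hnxt : S_nxt) (M : TM0.Machine Γ Λ) (Q : Pres) (hQ : Proper Q) (v : List ℕ)
    (hv : IsWord Q.1 v) : Det (runq M Q v) := by
  refine ⟨?_, ?_, ?_⟩
  · rintro x ⟨W, h1, h2, h3, h4⟩ ⟨y, e⟩ ⟨y', e'⟩
    obtain ⟨A, B, l, i, z, t, k1, k2, k3, k4⟩ := (hw1 Γ Λ M Q v hQ hv x y W h1 h2 h3).1 e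
    obtain ⟨A', B', l', i', z', t', j1, j2, j3, j4⟩ := (hw1 Γ Λ M Q v hQ hv x y' W h1 h2 h3).1 e'
    rw [k1] at j1 h2
    obtain ⟨rfl, rfl, rfl, rfl, rfl, rfl⟩ := lhs_unique h2 j1
    exact edge_ext _ _ (k2.trans j2.symm) (k3.trans j3.symm) (k4.trans j4.symm)
  · rintro x hx y ⟨e⟩
    exact (runq_fwd hw1 hnxt M Q hQ v hv hx e).1
  · rintro x ⟨W, h1, h2, h3, h4⟩ y ⟨e⟩
    obtain ⟨A, B, l, i, z, t, p, hM, k1, k2, k3, k4⟩ := (hw1 Γ Λ M Q v hQ hv x y W h1 h2 h3).2 e
    rw [k1, heads_append, heads_append, heads_act] at h2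
    rw [k1, hs_append, hs_append, hs_act] at h3
    have g1 : heads (A ++ lhs l i z t ++ B) = 1 := by
      rw [heads_append, heads_append, heads_lhs]
      exact h2
    refine ⟨A ++ lhs l i z t ++ B, ?_, g1, ?_, ?_⟩
    · have := (show Edge (pq M Q v) y _ from e).src
      rw [this, k2, k3, k4]
      simp
    · rw [hs_append, hs_append, hs_lhs]
      exact h3
    · intro hB
      generalize hW0 : A ++ lhs l i z t ++ B = W0 at hB
      cases hB with
      | halt A' B' l' i' z' x' h =>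
        obtain ⟨rfl, rfl, rfl, rfl, rfl, rfl⟩ := lhs_unique g1 hW0
        rw [hM] at h
        exact absurd h (by simp)
      | step A' B' l' i' z' x' p' h hB =>
        obtain ⟨rfl, rfl, rfl, rfl, rfl, rfl⟩ := lhs_unique g1 hW0
        rw [hM, Option.some.injEq] at h
        subst h
        rw [k1] at h4
        exact h4 hB

theorem fwd_word (hw1 : S_w1) (hnxt : S_nxt) (M : TM0.Machine Γ Λ) (Q : Pres) (hQ : Proper Q) (v : List ℕ)
    (hv : IsWord Q.1 v) {x z : Vertex (pq M Q v)} {a : ℕ} {g : pt x ⟶ pt z} (h : Fwd x a z g) :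
    x ∈ runq M Q v → z ∈ runq M Q v ∧ z.word = (nxt (mrules M v))^[a] x.word := by
  induction h with
  | nil x => exact fun hx => ⟨hx, rfl⟩
  | cons e h ih =>
    intro hx
    obtain ⟨h1, h2⟩ := runq_fwd hw1 hnxt M Q hQ v hv hx e
    obtain ⟨h3, h4⟩ := ih h1
    refine ⟨h3, ?_⟩
    rw [Function.iterate_succ_apply, ← h2]
    exact h4

/-- **If the machine neither halts nor repeats a word, the diagram group is trivial.** -/
theorem triv (hw1 : S_w1) (hnxt : S_nxt) (M : TM0.Machine Γ Λ) (Q : Pres) (hQ : Proper Q) (v : List ℕ)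
    (hv : IsWord Q.1 v) {x : Vertex (pq M Q v)} (hx : x ∈ runq M Q v)
    (hrep : ∀ i j, i < j → (nxt (mrules M v))^[i] x.word ≠ (nxt (mrules M v))^[j] x.word) :
    Subsingleton (DiagramGroup (pq M Q v) x) := by
  have key : ∀ g : pt x ⟶ pt x, g = 𝟙 _ := by
    intro g
    obtain ⟨z, a, k, p, r, h1, h2, h3⟩ := (runq_det hw1 hnxt M Q hQ v hv).loop hx g
    obtain ⟨hz, hz1⟩ := fwd_word hw1 hnxt M Q hQ v hv h1 hx
    obtain ⟨-, hz2⟩ := fwd_word hw1 hnxt M Q hQ v hv h2 hz
    have hk : k = 0 := by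
      by_contra hk
      rw [hz1, ← Function.iterate_add_apply] at hz2
      exact hrep a (k + a) (by omega) hz2
    subst hk
    cases h2
    rcases h3 with h3 | h3
    · rw [h3]; simp
    · rw [h3, Groupoid.vertexGroup_inv]; simp
  exact ⟨fun a b => (key a).trans (key b).symm⟩

theorem heads_zero_sq {A : List (Sy Γ Λ)} (hA : heads A = 0) (l : Λ) (i : Fin 3) :
    en (sq l i : Sy Γ Λ) ∉ A.map en := by
  intro h
  obtain ⟨s, hs, h1⟩ := List.mem_map.1 h
  have h2 : s = sq l i := en_inj h1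
  subst h2
  unfold heads at hA
  rw [List.countP_eq_zero] at hA
  exact hA _ hs rfl

theorem halt_word (M : TM0.Machine Γ Λ) (v : List ℕ) {A B : List (Sy Γ Λ)} {l : Λ} {i : Fin 3} {y x : TL Γ}
    (hM : M l (rd x) = none) (hA : heads A = 0) (hB : heads B = 0) :
    nm Γ Λ ∈ A.map en ++ rhq M v l i y x ++ B.map en ∧
      ∀ (l' : Λ) (i' : Fin 3), en (sq l' i' : Sy Γ Λ) ∉ A.map en ++ rhq M v l i y x ++ B.map en := by
  have hr : rhq M v l i y x = [en (.inl y : Sy Γ Λ), nm Γ Λ] ++ v.map (sft (nm Γ Λ)) ++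
      [nm Γ Λ + 1, en (.inl x : Sy Γ Λ)] := by
    unfold rhq
    rw [hM]
  rw [hr]
  refine ⟨by simp, ?_⟩
  intro l' i' h
  have hlt : en (sq l' i' : Sy Γ Λ) < nm Γ Λ := en_lt _
  simp only [List.mem_append, List.mem_cons, List.not_mem_nil, or_false] at h
  rcases h with (h | ((h | h) | h) | (h | h)) | h
  · exact heads_zero_sq hA l' i' h
  · have := en_inj h
    simp at this
  · omega
  · obtain ⟨k, -, hk⟩ := List.mem_map.1 h
    unfold sft at hk
    omega
  · omega
  · have := en_inj h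
    simp at this
  · exact heads_zero_sq hB l' i' h

/-- halting machine words reach the letter `#` -/
theorem bad_reach (hnxt : S_nxt) (M : TM0.Machine Γ Λ) (v : List ℕ) {W : List (Sy Γ Λ)} (h : Bad M W) :
    heads W = 1 → ∃ k, nm Γ Λ ∈ (nxt (mrules M v))^[k] (W.map en) := by
  induction h with
  | halt A B l i y x h =>
    intro h1
    rw [heads_append, heads_append, heads_lhs] at h1
    refine ⟨1, ?_⟩
    rw [Function.iterate_one, (hnxt Γ Λ M v).1 A B l i y x (by omega)]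
    exact (halt_word M v h (by omega) (by omega)).1
  | step A B l i y x p h hB ih =>
    intro h1
    rw [heads_append, heads_append, heads_lhs] at h1
    obtain ⟨k, hk⟩ := ih (by rw [heads_append, heads_append, heads_act]; exact h1)
    refine ⟨k + 1, ?_⟩
    have hr : rhq M v l i y x = (act p.1 i y x p.2).map en := by
      unfold rhq
      rw [h]
    rw [Function.iterate_succ_apply, (hnxt Γ Λ M v).1 A B l i y x (by omega), hr]
    simpa using hk

/-- one step from a configuration -/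
theorem step_conf (hnxt : S_nxt) (M : TM0.Machine Γ Λ) (v : List ℕ) (L : List Γ) (l : Λ) (i : Fin 3)
    (R : List Γ) :
    (∃ (L' : List Γ) (l' : Λ) (i' : Fin 3) (R' : List Γ),
      nxt (mrules M v) ((conf L l i R).map en) = (conf L' l' i' R').map en ∧
      (Bad M (conf L' l' i' R') → Bad M (conf L l i R))) ∨
    (Bad M (conf L l i R) ∧ nm Γ Λ ∈ nxt (mrules M v) ((conf L l i R).map en) ∧
      ∀ (l' : Λ) (i' : Fin 3), en (sq l' i' : Sy Γ Λ) ∉ nxt (mrules M v) ((conf L l i R).map en)) := by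
  obtain ⟨A, B, y, x, h1, -, h3⟩ := one_step L l i R
  have h4 := heads_conf L l i R
  rw [h1, heads_append, heads_append, heads_lhs] at h4
  rw [h1, (hnxt Γ Λ M v).1 A B l i y x (by omega)]
  rcases hM : M l (rd x) with _ | p
  · right
    exact ⟨Bad.halt A B l i y x hM, halt_word M v hM (by omega) (by omega)⟩
  · left
    obtain ⟨L', R', h5, -⟩ := h3 p
    refine ⟨L', p.1, i + 1, R', ?_, ?_⟩
    · have hr : rhq M v l i y x = (act p.1 i y x p.2).map en := by
        unfold rhq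
        rw [hM]
      rw [hr, ← h5]
      simp
    · intro hB
      rw [← h5] at hB
      exact Bad.step A B l i y x p hM hB

theorem orbit_run (hnxt : S_nxt) (M : TM0.Machine Γ Λ) (v : List ℕ) (L : List Γ) (l : Λ) (i : Fin 3)
    (R : List Γ) (h : ¬ Bad M (conf L l i R)) (k : ℕ) : ∃ (L' : List Γ) (l' : Λ) (i' : Fin 3) (R' : List Γ),
      (nxt (mrules M v))^[k] ((conf L l i R).map en) = (conf L' l' i' R').map en ∧
      ¬ Bad M (conf L' l' i' R') := by
  induction k with
  | zero => exact ⟨L, l, i, R, rfl, h⟩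
  | succ k ih =>
    obtain ⟨L', l', i', R', h1, h2⟩ := ih
    rw [Function.iterate_succ_apply', h1]
    rcases step_conf hnxt M v L' l' i' R' with ⟨L₂, l₂, i₂, R₂, h3, h4⟩ | ⟨h3, -⟩
    · exact ⟨L₂, l₂, i₂, R₂, h3, fun h => h2 (h4 h)⟩
    · exact absurd h3 h2

theorem orbit_inv (hnxt : S_nxt) (M : TM0.Machine Γ Λ) (v : List ℕ) (L : List Γ) (l : Λ) (i : Fin 3)
    (R : List Γ) (k : ℕ) : (∃ (L' : List Γ) (l' : Λ) (i' : Fin 3) (R' : List Γ),
      (nxt (mrules M v))^[k] ((conf L l i R).map en) = (conf L' l' i' R').map en) ∨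
      ∀ (l' : Λ) (i' : Fin 3), en (sq l' i' : Sy Γ Λ) ∉ (nxt (mrules M v))^[k] ((conf L l i R).map en) := by
  induction k with
  | zero => exact Or.inl ⟨L, l, i, R, rfl⟩
  | succ k ih =>
    rw [Function.iterate_succ_apply']
    rcases ih with ⟨L', l', i', R', h1⟩ | h
    · rw [h1]
      rcases step_conf hnxt M v L' l' i' R' with ⟨L₂, l₂, i₂, R₂, h3, -⟩ | ⟨-, -, h3⟩
      · exact Or.inl ⟨L₂, l₂, i₂, R₂, h3⟩
      · exact Or.inr h3
    · rw [(hnxt Γ Λ M v).2 _ h]
      exact Or.inr h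

theorem bad_iff_orbit (hnxt : S_nxt) (M : TM0.Machine Γ Λ) (v : List ℕ) (L : List Γ) (l : Λ) (i : Fin 3)
    (R : List Γ) : Bad M (conf L l i R) ↔ ∃ k, nm Γ Λ ∈ (nxt (mrules M v))^[k] ((conf L l i R).map en) := by
  constructor
  · intro h
    exact bad_reach hnxt M v h (heads_conf _ _ _ _)
  · rintro ⟨k, hk⟩
    by_contra h
    obtain ⟨L', l', i', R', h1, -⟩ := orbit_run hnxt M v L l i R h k
    rw [h1] at hk
    exact lt_irrefl _ (mem_letters _ hk)

theorem orbit_fix (hnxt : S_nxt) (M : TM0.Machine Γ Λ) (v : List ℕ) (L : List Γ) (l : Λ) (i : Fin 3)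
    (R : List Γ) (k : ℕ) (hk : nm Γ Λ ∈ (nxt (mrules M v))^[k] ((conf L l i R).map en)) :
    (nxt (mrules M v))^[k + 1] ((conf L l i R).map en) = (nxt (mrules M v))^[k] ((conf L l i R).map en) := by
  rw [Function.iterate_succ_apply']
  rcases orbit_inv hnxt M v L l i R k with ⟨L', l', i', R', h1⟩ | h
  · rw [h1] at hk
    exact absurd (mem_letters _ hk) (lt_irrefl _)
  · exact (hnxt Γ Λ M v).2 _ h

end

end Pool.Agent.Y50.RD
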