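import Pool.Agent.Y50.RD.Main
import Pool.Agent.Y917.RD.Inf
import Pool.Agent.Y10.RD.Rk

set_option autoImplicit false

/-! The Rice theorem for the rank of the abelianisation. -/

namespace Pool.Agent.Y50.RD

open CategoryTheory TensorProduct
open Pool.Agent.H333R3.DG

/-- the rank of the abelianisation of a group -/
noncomputable def grk (G : Type) [Group G] : Cardinal :=
  Module.rank ℚ (ℚ ⊗[ℤ] Additive (Abelianization G))

theorem grk_congr {G H : Type} [Group G] [Group H] (e : G ≃* H) : grk G = grk H := by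
  let e1 : Additive (Abelianization G) ≃+ Additive (Abelianization H) :=
    MulEquiv.toAdditive e.abelianizationCongr
  let e2 : (ℚ ⊗[ℤ] Additive (Abelianization G)) ≃ₗ[ℚ] (ℚ ⊗[ℤ] Additive (Abelianization H)) :=
    TensorProduct.AlgebraTensorModule.congr (LinearEquiv.refl ℚ ℚ) e1.toIntLinearEquiv
  exact e2.rank_eq

open Classical in
/-- the rank as an element of `{0, 1, 2, …} ∪ {∞}` -/
noncomputable def grkO (G : Type) [Group G] : Option ℕ :=
  if grk G < Cardinal.aleph0 then some (Cardinal.toNat (grk G)) else none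

theorem grkO_eq (P : Pres) (w : Vertex P) : grkO (DiagramGroup P w) = abRank P w := rfl

theorem grkO_congr {G H : Type} [Group G] [Group H] (e : G ≃* H) : grkO G = grkO H := by
  unfold grkO
  rw [grk_congr e]

theorem grkO_unit : grkO PUnit = some 0 := by
  have h : grk PUnit = 0 := by
    unfold grk
    rw [rank_eq_zero_iff]
    intro x
    refine ⟨1, one_ne_zero, ?_⟩
    rw [one_smul]
    induction x using TensorProduct.induction_on with
    | zero => rfl
    | tmul q a =>
      have ha : a = 0 := by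
        obtain ⟨g, hg⟩ := QuotientGroup.mk_surjective (Additive.toMul a)
        have hg1 : g = 1 := rfl
        rw [hg1] at hg
        have : Additive.toMul a = 1 := hg.symm
        exact this
      rw [ha, TensorProduct.tmul_zero]
    | add x y hx hy => rw [hx, hy, add_zero]
  unfold grkO
  rw [if_pos (by rw [h]; exact Cardinal.aleph0_pos), h]
  simp

/-- every value occurs -/
theorem all_ranks (r : Option ℕ) : ∃ (Q : Pres) (v : Vertex Q), Proper Q ∧ abRank Q v = r := by
  cases r with
  | none => exact Pool.Agent.Y917.RD.t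
  | some r => exact Pool.Agent.Y10.RD.t r

theorem rice_rank (S : Set (Option ℕ)) (h1 : S ≠ ∅) (h2 : S ≠ Set.univ) :
    ∃ P : Pres, Proper P ∧
      (∀ f : Pres × List ℕ →. Bool, Partrec f →
        ∃ w : Vertex P, ¬ ∃ b ∈ f (P, w.word), (b = true ↔ abRank P w ∈ S)) ∧
      (some 0 ∈ S → ∀ f : Pres × List ℕ →. Unit, Partrec f →
        ∃ w : Vertex P, ¬ ((f (P, w.word)).Dom ↔ abRank P w ∈ S)) := by
  obtain ⟨o1, ho1⟩ := Set.nonempty_iff_ne_empty.2 h1
  obtain ⟨o2, ho2⟩ := (Set.ne_univ_iff_exists_notMem S).1 h2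
  obtain ⟨Q1, v1, hQ1, e1⟩ := all_ranks o1
  obtain ⟨Q2, v2, hQ2, e2⟩ := all_ranks o2
  obtain ⟨P, hP, k1, k2⟩ := rice (fun G _ => grkO G ∈ S) (by
    rintro G H _ _ ⟨e⟩ hG
    rw [← grkO_congr e]
    exact hG) ⟨Q1, v1, hQ1, by rw [grkO_eq, e1]; exact ho1⟩ ⟨Q2, v2, hQ2, by rw [grkO_eq, e2]; exact ho2⟩
  exact ⟨P, hP, k1, fun h => k2 (by rw [grkO_unit]; exact h)⟩

end Pool.Agent.Y50.RD
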