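import Pool.Agent.H333R3.DG.Rank

/-! Diagram groups with all ranks: statements. -/

set_option autoImplicit false

namespace Pool.Agent.Y50.RD

open Pool.Agent.H333R3.DG

/-- RD-RK: every finite rank occurs -/
def S_rk : Prop := ∀ r : ℕ, ∃ (Q : Pres) (v : Vertex Q), Proper Q ∧ abRank Q v = some r

/-- RD-INF: the infinite rank occurs -/
def S_inf : Prop := ∃ (Q : Pres) (v : Vertex Q), Proper Q ∧ abRank Q v = none

end Pool.Agent.Y50.RD
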